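import Pool.Agent.K1H14.SD.Stm

/-!
# The positive hermitian form
-/

set_option autoImplicit false

namespace Pool.Agent.K1H39.SD

open Pool.Agent.K1H14.KS Pool.Agent.K1H14.SD CliffordAlgebra

universe u

section

variable {A : Type u} [Ring A] [Algebra ℂ A] {d : ℕ} {M : Finset (Fin d) → A}
  {st : A →ₗ[ℂ] A} {tr : A →ₗ[ℂ] ℂ} {c : A → A}

theorem mem_evs {K : Finset (Fin d)} : K ∈ evs d ↔ Even K.card := by
  simp [evs]

theorem c_sum (hc : IsCj M st c) (a : Finset (Fin d) → ℂ) (s : Finset (Finset (Fin d)))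
    (hs : ∀ K ∈ s, Even K.card) :
    c (∑ K ∈ s, a K • M K) = ∑ K ∈ s, (starRingEnd ℂ) (a K) • M K := by
  classical
  induction s using Finset.induction_on with
  | empty =>
    have h := hc.1.add 0 0
    rw [add_zero] at h
    simp only [Finset.sum_empty]
    exact left_eq_add.1 h
  | insert K s hK ih =>
    rw [Finset.sum_insert hK, Finset.sum_insert hK, hc.1.add, hc.1.smul,
      hc.2 K (hs K (Finset.mem_insert_self _ _)), ih (fun L hL => hs L (Finset.mem_insert_of_mem hL))]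

theorem tr_sum (ht : IsTr M tr) (a : Finset (Fin d) → ℂ) :
    tr (∑ K ∈ evs d, a K • M K) = a ∅ := by
  rw [map_sum]
  have h : ∀ K ∈ evs d, tr (a K • M K) = if K = ∅ then a K else 0 := by
    intro K hK
    rw [map_smul, ht.1 K (mem_evs.1 hK)]
    split_ifs <;> simp
  rw [Finset.sum_congr rfl h, Finset.sum_ite_eq' (evs d) ∅ (fun K => a K),
    if_pos (mem_evs.2 (by simp))]

theorem tr_st (h2 : S_AVG.{u}) (hM : EvenCl M st) (ht : IsTr M tr) (x : A) :
    tr (st x) = tr x := by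
  have hx := (h2 M st tr hM ht).2 x
  obtain ⟨a, ha⟩ : ∃ a : Finset (Fin d) → ℂ, a = fun K => tr (st (M K) * x) := ⟨_, rfl⟩
  have hx : x = ∑ K ∈ evs d, a K • M K := by rw [ha]; exact hx
  have h3 : st x = ∑ K ∈ evs d, (a K * (-1 : ℂ) ^ (K.card / 2)) • M K := by
    conv_lhs => rw [hx]
    rw [map_sum]
    refine Finset.sum_congr rfl fun K hK => ?_
    rw [map_smul, hM.st_M K (mem_evs.1 hK), smul_smul]
  rw [h3, tr_sum ht]
  conv_rhs => rw [hx]
  rw [tr_sum ht a]
  simp

end

theorem t_HER (h2 : S_AVG.{u}) : S_HER.{u} := by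
  intro A _ _ d M st tr c hM ht hc
  have hx : ∀ x, x = ∑ K ∈ evs d, tr (st (M K) * x) • M K := (h2 M st tr hM ht).2
  have hcx : ∀ x, c x = ∑ K ∈ evs d, (starRingEnd ℂ) (tr (st (M K) * x)) • M K := by
    intro x
    conv_lhs => rw [hx x]
    exact c_sum hc _ _ (fun K hK => mem_evs.1 hK)
  refine ⟨fun x => ?_, fun x => ?_, tr_st h2 hM ht, fun x hne => ?_⟩
  · rw [hcx x, c_sum hc (fun K => (starRingEnd ℂ) (tr (st (M K) * x))) _
      (fun K hK => mem_evs.1 hK)]
    simp only [Complex.conj_conj]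
    exact (hx x).symm
  · rw [hcx x, tr_sum ht (fun K => (starRingEnd ℂ) (tr (st (M K) * x)))]
    conv_rhs => rw [hx x]
    rw [tr_sum ht (fun K => tr (st (M K) * x))]
  · have h1 : tr (st x * c x) = ∑ K ∈ evs d, ((Complex.normSq (tr (st (M K) * x)) : ℝ) : ℂ) := by
      conv_lhs => rw [hcx x]
      rw [Finset.mul_sum, map_sum]
      refine Finset.sum_congr rfl fun K _ => ?_
      rw [mul_smul_comm, map_smul, ← tr_st h2 hM ht (st x * M K), hM.st_mul, hM.st_st,
        smul_eq_mul, mul_comm, Complex.mul_conj]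
    refine ⟨∑ K ∈ evs d, Complex.normSq (tr (st (M K) * x)), ?_, ?_⟩
    · have h4 : ∃ K ∈ evs d, tr (st (M K) * x) ≠ 0 := by
        by_contra hne'
        push Not at hne'
        apply hne
        rw [hx x]
        exact Finset.sum_eq_zero fun K hK => by rw [hne' K hK, zero_smul]
      obtain ⟨K, hK, hK'⟩ := h4
      exact Finset.sum_pos' (fun L _ => Complex.normSq_nonneg _)
        ⟨K, hK, Complex.normSq_pos.2 hK'⟩
    · rw [h1]
      push_cast
      rfl

end Pool.Agent.K1H39.SD
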